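import Pool.Agent.LC.Space

/-!
MP_b00e46_an. Under the open colouring axiom of Todorcevic every automorphism of the Banach
space of bounded real sequences modulo null sequences is somewhere trivial.
-/

namespace Pool.Agent.Results.MP_b00e46_an.OcaSomewhereTrivial

open Pool.Agent.LC

/-- OCA implies that every automorphism of the quotient of the bounded sequences by the null
sequences is somewhere trivial. -/
theorem result (hO : OCA) : ∀ T : Quo ≃L[ℝ] Quo, SomewhereTriv T :=
  fun T => main_quo hO T

end Pool.Agent.Results.MP_b00e46_an.OcaSomewhereTrivial
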